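import Pool.Agent.Lib.MP_a60258_hol.Defs

/-!
# Module GAUSS: polynomials in complex Gaussians
-/

open MeasureTheory ProbabilityTheory MvPolynomial Finset

namespace Pool.Agent.Hol.H61

/-- polynomials with complex coefficients in the real Gaussians -/
abbrev Rc := MvPolynomial ℕ ℂ

/-- the expectation of a polynomial with complex coefficients -/
noncomputable def Ec : Rc →ₗ[ℂ] ℂ :=
  (basisMonomials ℕ ℂ).constr ℂ fun α => ((A602.E (monomial α 1) : ℝ) : ℂ)

lemma E_monomial_c (α : ℕ →₀ ℕ) (c : ℝ) : A602.E (monomial α c) = c * A602.E (monomial α 1) := by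
  rw [← mul_one c, ← smul_eq_mul, ← smul_monomial, map_smul, smul_eq_mul, smul_eq_mul, mul_one]

lemma Ec_monomial (α : ℕ →₀ ℕ) (c : ℂ) :
    Ec (monomial α c) = c * ((A602.E (monomial α 1) : ℝ) : ℂ) := by
  have h : monomial α c = c • (basisMonomials ℕ ℂ) α := by
    rw [coe_basisMonomials]
    simp [smul_monomial]
  rw [h, map_smul, Ec, Module.Basis.constr_basis, smul_eq_mul]

lemma Ec_C (c : ℂ) : Ec (C c) = c := by
  rw [← monomial_zero', Ec_monomial, monomial_zero', A602.E_C]
  simp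

/-- real coefficients seen as complex coefficients -/
noncomputable abbrev up : A602.R →+* Rc := map (Complex.ofRealHom)

lemma Ec_up (P : A602.R) : Ec (up P) = ((A602.E P : ℝ) : ℂ) := by
  induction P using MvPolynomial.induction_on' with
  | monomial α c =>
    rw [map_monomial, Ec_monomial, E_monomial_c α c]
    push_cast
    rfl
  | add p q hp hq => rw [map_add, map_add, map_add, hp, hq]; push_cast; rfl

lemma up_injective : Function.Injective up := map_injective _ Complex.ofReal_injective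

/-- Gaussian integration by parts -/
lemma Ec_X_mul (i : ℕ) (Q : Rc) : Ec (X i * Q) = Ec (pderiv i Q) := by
  induction Q using MvPolynomial.induction_on' with
  | monomial α c =>
    have h := A602.E_X_mul i (monomial α 1)
    have h1 : (X i : Rc) * monomial α c = monomial (α + Finsupp.single i 1) c := by
      rw [X, monomial_mul, one_mul, add_comm]
    have h2 : (X i : A602.R) * monomial α 1 = monomial (α + Finsupp.single i 1) 1 := by
      rw [X, monomial_mul, one_mul, add_comm]
    rw [h2, pderiv_monomial, E_monomial_c _ (1 * (α i : ℝ))] at h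
    rw [h1, pderiv_monomial, Ec_monomial, Ec_monomial, h]
    push_cast
    ring
  | add p q hp hq => rw [mul_add, map_add, map_add, map_add, hp, hq]

/-- complex conjugation of the coefficients -/
noncomputable abbrev cj : Rc →+* Rc := map (starRingEnd ℂ)

lemma Ec_cj (Q : Rc) : Ec (cj Q) = (starRingEnd ℂ) (Ec Q) := by
  induction Q using MvPolynomial.induction_on' with
  | monomial α c => rw [map_monomial, Ec_monomial, Ec_monomial, map_mul, Complex.conj_ofReal]
  | add p q hp hq => rw [map_add, map_add, map_add, map_add, hp, hq]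

lemma cj_cj (Q : Rc) : cj (cj Q) = Q := by
  rw [MvPolynomial.map_map]
  have : ((starRingEnd ℂ).comp (starRingEnd ℂ)) = RingHom.id ℂ := by
    ext z; simp
  rw [this, map_id]

lemma eval_cj (ω : ℕ → ℝ) (Q : Rc) :
    eval (fun k => (ω k : ℂ)) (cj Q) = (starRingEnd ℂ) (eval (fun k => (ω k : ℂ)) Q) := by
  induction Q using MvPolynomial.induction_on with
  | C a => simp
  | add p q hp hq => rw [map_add, map_add, map_add, map_add, hp, hq]
  | mul_X p n h => rw [map_mul, map_mul, map_mul, map_mul, h]; simp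

lemma eval_up (ω : ℕ → ℝ) (P : A602.R) :
    eval (fun k => (ω k : ℂ)) (up P) = ((eval ω P : ℝ) : ℂ) := by
  induction P using MvPolynomial.induction_on with
  | C a => simp
  | add p q hp hq => rw [map_add, map_add, map_add, hp, hq]; push_cast; rfl
  | mul_X p n h => rw [map_mul, map_mul, map_mul, h]; simp

/-! ### The real part -/

/-- the real part of the coefficients -/
noncomputable def reP (Q : Rc) : A602.R := ∑ α ∈ Q.support, monomial α (coeff α Q).re

lemma coeff_reP (Q : Rc) (α : ℕ →₀ ℕ) : coeff α (reP Q) = (coeff α Q).re := by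
  classical
  unfold reP
  rw [coeff_sum]
  simp only [coeff_monomial]
  rw [Finset.sum_ite_eq']
  split_ifs with h
  · rfl
  · rw [notMem_support_iff.mp h, Complex.zero_re]

lemma up_reP (Q : Rc) : up (reP Q) = C (1 / 2) * (Q + cj Q) := by
  ext α
  rw [coeff_map, coeff_C_mul, coeff_add, coeff_map, coeff_reP]
  simp only [Complex.ofRealHom_eq_coe]
  rw [Complex.re_eq_add_conj]
  ring

/-! ### Substitution -/

variable {n : ℕ}

/-- the complex Gaussian as a polynomial -/
noncomputable def zp (k : ℕ) : Rc := X (2 * k) + C Complex.I * X (2 * k + 1)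

/-- substitution of the complex Gaussians -/
noncomputable abbrev Ph : MvPolynomial (Fin n) ℂ →ₐ[ℂ] Rc := aeval (fun j : Fin n => zp j)

lemma eval_zp (ω : ℕ → ℝ) (k : ℕ) : eval (fun k => (ω k : ℂ)) (zp k) = zet ω k := by
  simp [zp, zet]
  ring

lemma eval_Ph (ω : ℕ → ℝ) (F : MvPolynomial (Fin n) ℂ) :
    eval (fun k => (ω k : ℂ)) (Ph F) = eval (fun j : Fin n => zet ω j) F := by
  induction F using MvPolynomial.induction_on with
  | C a => simp
  | add p q hp hq => rw [map_add, map_add, map_add, hp, hq]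
  | mul_X p k h => rw [map_mul, map_mul, map_mul, h, aeval_X, eval_zp, eval_X]

lemma pderiv_even_zp (j k : ℕ) : pderiv (2 * j) (zp k) = if k = j then 1 else 0 := by
  unfold zp
  rw [map_add, pderiv_C_mul, pderiv_X_of_ne (show 2 * k + 1 ≠ 2 * j by omega), mul_zero, add_zero]
  split_ifs with h
  · subst h; rw [pderiv_X_self]
  · rw [pderiv_X_of_ne (by omega)]

lemma pderiv_odd_zp (j k : ℕ) : pderiv (2 * j + 1) (zp k) = if k = j then C Complex.I else 0 := by
  unfold zp
  rw [map_add, pderiv_C_mul, pderiv_X_of_ne (show 2 * k ≠ 2 * j + 1 by omega), zero_add]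
  split_ifs with h
  · subst h; rw [pderiv_X_self, mul_one]
  · rw [pderiv_X_of_ne (by omega), mul_zero]

lemma pderiv_even (j : Fin n) (F : MvPolynomial (Fin n) ℂ) :
    pderiv (2 * (j : ℕ)) (Ph F) = Ph (pderiv j F) := by
  induction F using MvPolynomial.induction_on with
  | C a => simp
  | add p q hp hq => rw [map_add, map_add, map_add, map_add, hp, hq]
  | mul_X p k h =>
    rw [map_mul, pderiv_mul, h, pderiv_mul, map_add, map_mul, map_mul, aeval_X, pderiv_even_zp]
    by_cases hk : k = j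
    · subst hk
      simp
    · rw [if_neg (fun h => hk (Fin.ext h)), pderiv_X_of_ne hk]
      simp

lemma pderiv_odd (j : Fin n) (F : MvPolynomial (Fin n) ℂ) :
    pderiv (2 * (j : ℕ) + 1) (Ph F) = Ph (C Complex.I * pderiv j F) := by
  induction F using MvPolynomial.induction_on with
  | C a => simp
  | add p q hp hq => rw [map_add, map_add, hp, hq, map_add, mul_add, map_add]
  | mul_X p k h =>
    rw [map_mul, pderiv_mul, h, pderiv_mul, map_mul, map_mul, map_add, map_mul, map_mul, aeval_X,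
      pderiv_odd_zp]
    by_cases hk : k = j
    · subst hk
      simp
      ring
    · rw [if_neg (fun h => hk (Fin.ext h)), pderiv_X_of_ne hk]
      simp
      ring

lemma pderiv_out {i : ℕ} (hi : 2 * n ≤ i) (F : MvPolynomial (Fin n) ℂ) :
    pderiv i (Ph F) = 0 := by
  induction F using MvPolynomial.induction_on with
  | C a => simp
  | add p q hp hq => rw [map_add, map_add, hp, hq, add_zero]
  | mul_X p k h =>
    have hk := k.2
    rw [map_mul, pderiv_mul, h, aeval_X, zp, map_add, pderiv_C_mul,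
      pderiv_X_of_ne (show 2 * (k : ℕ) ≠ i by omega),
      pderiv_X_of_ne (show 2 * (k : ℕ) + 1 ≠ i by omega)]
    simp

/-! ### The scalar product -/

/-- the scalar product of two polynomials in the complex Gaussians -/
noncomputable def B (F H : MvPolynomial (Fin n) ℂ) : ℂ := Ec (Ph F * cj (Ph H))

lemma B_add_left (F F' H : MvPolynomial (Fin n) ℂ) : B (F + F') H = B F H + B F' H := by
  simp only [B, map_add, add_mul]

lemma B_C_mul_left (a : ℂ) (F H : MvPolynomial (Fin n) ℂ) : B (C a * F) H = a * B F H := by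
  unfold B
  rw [map_mul Ph, aeval_C, algebraMap_eq, mul_assoc, C_mul', map_smul, smul_eq_mul]

lemma B_zero_left (H : MvPolynomial (Fin n) ℂ) : B 0 H = 0 := by simp [B]

lemma B_zero_right (F : MvPolynomial (Fin n) ℂ) : B F 0 = 0 := by simp [B]

lemma B_sum_left {κ : Type*} (s : Finset κ) (F : κ → MvPolynomial (Fin n) ℂ)
    (H : MvPolynomial (Fin n) ℂ) : B (∑ k ∈ s, F k) H = ∑ k ∈ s, B (F k) H := by
  simp only [B, map_sum, sum_mul]

lemma B_nsmul_left (m : ℕ) (F H : MvPolynomial (Fin n) ℂ) : B (m • F) H = m * B F H := by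
  unfold B
  rw [map_nsmul, smul_mul_assoc, map_nsmul, nsmul_eq_mul]

lemma B_conj (F H : MvPolynomial (Fin n) ℂ) : (starRingEnd ℂ) (B F H) = B H F := by
  unfold B
  rw [← Ec_cj, map_mul, cj_cj, mul_comm]

lemma B_X_mul (j : Fin n) (F H : MvPolynomial (Fin n) ℂ) :
    B (X j * F) H = 2 * B F (pderiv j H) := by
  unfold B
  rw [map_mul Ph, aeval_X, zp]
  have e : (X (2 * (j : ℕ)) + C Complex.I * X (2 * (j : ℕ) + 1) : Rc) * Ph F * cj (Ph H)
      = X (2 * (j : ℕ)) * (Ph F * cj (Ph H))
        + Complex.I • (X (2 * (j : ℕ) + 1) * (Ph F * cj (Ph H))) := by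
    rw [← C_mul']
    ring
  rw [e, map_add, map_smul, Ec_X_mul, Ec_X_mul, pderiv_mul, pderiv_mul, pderiv_map, pderiv_map,
    pderiv_even, pderiv_odd, pderiv_even, pderiv_odd, map_add, map_add, map_mul Ph, map_mul Ph,
    aeval_C, algebraMap_eq, map_mul (MvPolynomial.map (starRingEnd ℂ)), map_C]
  have e1 : Ec (C Complex.I * Ph (pderiv j F) * cj (Ph H))
      = Complex.I * Ec (Ph (pderiv j F) * cj (Ph H)) := by
    rw [mul_assoc, C_mul', map_smul, smul_eq_mul]
  have e2 : Ec (Ph F * (C ((starRingEnd ℂ) Complex.I) * cj (Ph (pderiv j H))))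
      = -Complex.I * Ec (Ph F * cj (Ph (pderiv j H))) := by
    rw [mul_left_comm, C_mul', map_smul, smul_eq_mul, Complex.conj_I]
  rw [e1, e2, smul_eq_mul]
  have hI : Complex.I * Complex.I = -1 := Complex.I_mul_I
  linear_combination (Ec (Ph (pderiv j F) * cj (Ph H)) - Ec (Ph F * cj (Ph (pderiv j H)))) * hI

lemma B_euler {N : ℕ} {F : MvPolynomial (Fin n) ℂ} (hF : F.IsHomogeneous N)
    (H : MvPolynomial (Fin n) ℂ) : N * B F H = 2 * ∑ j, B (pderiv j F) (pderiv j H) := by
  rw [← B_nsmul_left, ← hF.sum_X_mul_pderiv, B_sum_left, mul_sum]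
  exact sum_congr rfl fun j _ => B_X_mul j _ _

lemma eq_C_of_zero {F : MvPolynomial (Fin n) ℂ} (hF : F.IsHomogeneous 0) : F = C (coeff 0 F) := by
  rwa [← totalDegree_zero_iff_isHomogeneous, totalDegree_eq_zero_iff_eq_C] at hF

lemma B_ne : ∀ {N M : ℕ} {F H : MvPolynomial (Fin n) ℂ}, F.IsHomogeneous N → H.IsHomogeneous M →
    N ≠ M → B F H = 0
  | 0, 0, _, _, _, _, h => absurd rfl h
  | 0, M + 1, F, H, hF, hH, _ => by
      have h1 := B_euler hH F
      have h2 : ∀ j, pderiv j F = 0 := fun j => by rw [eq_C_of_zero hF, pderiv_C]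
      simp only [h2, B_zero_right, sum_const_zero, mul_zero] at h1
      have h3 : B H F = 0 := by
        rcases mul_eq_zero.mp h1 with h | h
        · exact absurd h (Nat.cast_ne_zero.mpr (Nat.succ_ne_zero _))
        · exact h
      rw [← B_conj, h3, map_zero]
  | N + 1, 0, F, H, hF, hH, _ => by
      have h1 := B_euler hF H
      have h2 : ∀ j, pderiv j H = 0 := fun j => by rw [eq_C_of_zero hH, pderiv_C]
      simp only [h2, B_zero_right, sum_const_zero, mul_zero] at h1
      rcases mul_eq_zero.mp h1 with h | h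
      · exact absurd h (Nat.cast_ne_zero.mpr (Nat.succ_ne_zero _))
      · exact h
  | N + 1, M + 1, F, H, hF, hH, h => by
      have h1 := B_euler hF H
      have h2 : ∀ j, B (pderiv j F) (pderiv j H) = 0 := fun j =>
        B_ne (N := N) (M := M) hF.pderiv hH.pderiv fun h' => h (by rw [h'])
      simp only [h2, sum_const_zero, mul_zero] at h1
      rcases mul_eq_zero.mp h1 with h | h
      · exact absurd h (Nat.cast_ne_zero.mpr (Nat.succ_ne_zero _))
      · exact h

/-! ### Norms -/

lemma fc_pderiv (F : MvPolynomial (Fin n) ℂ) (s : Fin n) (m : Fin n → ℕ) :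
    fc (pderiv s F) m = fc F (m + Pi.single s 1) := by
  unfold fc
  rw [coeff_pderiv]
  have h1 : Finsupp.equivFunOnFinite.symm (m + Pi.single s 1)
      = Finsupp.equivFunOnFinite.symm m + Finsupp.single s 1 := by
    ext t
    simp [Finsupp.single_apply, Pi.single_apply, eq_comm]
  have h2 : (∏ t, (((m + Pi.single s 1 : Fin n → ℕ) t).factorial : ℂ))
      = (m s + 1) * ∏ t, ((m t).factorial : ℂ) := by
    rw [← mul_prod_erase univ _ (mem_univ s), ← mul_prod_erase univ _ (mem_univ s)]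
    have h3 : ∏ t ∈ univ.erase s, (((m + Pi.single s 1 : Fin n → ℕ) t).factorial : ℂ)
        = ∏ t ∈ univ.erase s, ((m t).factorial : ℂ) := by
      refine prod_congr rfl fun t ht => ?_
      rw [Pi.add_apply, Pi.single_eq_of_ne (ne_of_mem_erase ht), add_zero]
    rw [h3, Pi.add_apply, Pi.single_eq_same, Nat.factorial_succ]
    push_cast
    ring
  rw [h1, h2]
  simp only [Finsupp.equivFunOnFinite_symm_apply_apply]
  ring

lemma cnt_cons {N : ℕ} (s : Fin n) (v : Fin N → Fin n) :
    cnt (Fin.cons s v : Fin (N + 1) → Fin n) = cnt v + Pi.single s 1 := by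
  classical
  funext t
  simp only [cnt, Pi.add_apply]
  rw [Fin.univ_succ, filter_cons]
  simp only [Fin.cons_zero, filter_map]
  by_cases h : s = t
  · subst h
    simp only [if_true, Pi.single_eq_same, card_cons, card_map]
    rfl
  · simp only [h, if_false, card_map]
    rw [Pi.single_eq_of_ne (Ne.symm h), add_zero]
    rfl

lemma nrm_succ (N : ℕ) (F : MvPolynomial (Fin n) ℂ) :
    ((N : ℝ) + 1) * nrm (N + 1) F = ∑ j, nrm N (pderiv j F) := by
  unfold nrm
  have h1 : (∑ v : Fin (N + 1) → Fin n, ‖fc F (cnt v)‖ ^ 2)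
      = ∑ j, ∑ v : Fin N → Fin n, ‖fc (pderiv j F) (cnt v)‖ ^ 2 := by
    rw [← (Fin.consEquiv fun _ => Fin n).sum_comp, Fintype.sum_prod_type]
    refine sum_congr rfl fun j _ => sum_congr rfl fun v _ => ?_
    rw [fc_pderiv, ← cnt_cons]
    rfl
  rw [h1, ← sum_div, Nat.factorial_succ]
  push_cast
  have h2 : ((N : ℝ) + 1) ≠ 0 := by positivity
  have h3 : (N.factorial : ℝ) ≠ 0 := by positivity
  field_simp

lemma B_self : ∀ {N : ℕ} {F : MvPolynomial (Fin n) ℂ}, F.IsHomogeneous N →
    B F F = ((2 ^ N * nrm N F : ℝ) : ℂ)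
  | 0, F, hF => by
      have h1 : B F F = coeff 0 F * (starRingEnd ℂ) (coeff 0 F) := by
        conv_lhs => rw [eq_C_of_zero hF]
        unfold B
        rw [aeval_C, algebraMap_eq, map_C, ← C_mul, Ec_C]
      have h2 : nrm 0 F = ‖coeff 0 F‖ ^ 2 := by
        unfold nrm
        rw [Fintype.sum_unique]
        have h3 : cnt (default : Fin 0 → Fin n) = 0 := by
          funext t; simp [cnt]
        rw [h3]
        unfold fc
        have h4 : Finsupp.equivFunOnFinite.symm (0 : Fin n → ℕ) = 0 := by ext t; simp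
        rw [h4]
        simp
      rw [h1, h2, Complex.mul_conj, Complex.normSq_eq_norm_sq]
      simp
  | N + 1, F, hF => by
      have h1 := B_euler hF F
      have h2 : ∀ j, B (pderiv j F) (pderiv j F) = ((2 ^ N * nrm N (pderiv j F) : ℝ) : ℂ) :=
        fun j => B_self hF.pderiv
      simp only [h2] at h1
      have h3 := nrm_succ N F
      have h4 : (((N + 1 : ℕ) : ℂ)) * B F F
          = ((N + 1 : ℕ) : ℂ) * ((2 ^ (N + 1) * nrm (N + 1) F : ℝ) : ℂ) := by
        rw [h1]
        have h5 : ((N + 1 : ℕ) : ℝ) * (2 ^ (N + 1) * nrm (N + 1) F)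
            = 2 * ∑ j, 2 ^ N * nrm N (pderiv j F) := by
          rw [← mul_sum, ← h3]
          push_cast
          ring
        rw [← Complex.ofReal_natCast, ← Complex.ofReal_mul, h5]
        push_cast
        rfl
      exact mul_left_cancel₀ (Nat.cast_ne_zero.mpr (Nat.succ_ne_zero _)) h4

lemma nrm_I_mul (N : ℕ) (F : MvPolynomial (Fin n) ℂ) : nrm N (C Complex.I * F) = nrm N F := by
  unfold nrm fc
  simp only [coeff_C_mul, norm_mul, Complex.norm_I, one_mul]

/-! ### The real part of a polynomial in the complex Gaussians -/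

/-- `P` is the real part of `F` -/
def IsRe (P : A602.R) (F : MvPolynomial (Fin n) ℂ) : Prop :=
  up P = C (1 / 2) * (Ph F + cj (Ph F))

lemma isRe_reP (F : MvPolynomial (Fin n) ℂ) : IsRe (reP (Ph F)) F := up_reP _

lemma IsRe.eval {P : A602.R} {F : MvPolynomial (Fin n) ℂ} (h : IsRe P F) (ω : ℕ → ℝ) :
    MvPolynomial.eval ω P = (MvPolynomial.eval (fun j : Fin n => zet ω j) F).re := by
  have h1 := congrArg (MvPolynomial.eval (fun k => (ω k : ℂ))) h
  rw [eval_up, map_mul, map_add, eval_cj, eval_Ph, eval_C, Complex.add_conj] at h1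
  have h2 := congrArg Complex.re h1
  rw [Complex.ofReal_re] at h2
  rw [h2]
  simp

lemma IsRe.even {P : A602.R} {F : MvPolynomial (Fin n) ℂ} (h : IsRe P F) (j : Fin n) :
    IsRe (pderiv (2 * (j : ℕ)) P) (pderiv j F) := by
  unfold IsRe
  rw [← pderiv_map, h, pderiv_C_mul, map_add, pderiv_map, pderiv_even]

lemma IsRe.odd {P : A602.R} {F : MvPolynomial (Fin n) ℂ} (h : IsRe P F) (j : Fin n) :
    IsRe (pderiv (2 * (j : ℕ) + 1) P) (C Complex.I * pderiv j F) := by
  unfold IsRe
  rw [← pderiv_map, h, pderiv_C_mul, map_add, pderiv_map, pderiv_odd]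

lemma IsRe.out {P : A602.R} {F : MvPolynomial (Fin n) ℂ} (h : IsRe P F) {i : ℕ}
    (hi : 2 * n ≤ i) : pderiv i P = 0 := by
  apply up_injective
  rw [← pderiv_map, h, pderiv_C_mul, map_add, pderiv_map, pderiv_out hi, map_zero, map_zero,
    add_zero, mul_zero]

lemma IsRe.pow {P : A602.R} {F : MvPolynomial (Fin n) ℂ} (h : IsRe P F) (k : ℕ) :
    ((A602.E (P ^ k) : ℝ) : ℂ)
      = (1 / 2) ^ k * ∑ m ∈ range (k + 1), B (F ^ m) (F ^ (k - m)) * (k.choose m : ℂ) := by
  rw [← Ec_up, map_pow, h, mul_pow, ← C_pow, C_mul', map_smul, smul_eq_mul, add_pow, map_sum]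
  congr 1
  refine sum_congr rfl fun m _ => ?_
  unfold B
  rw [map_pow, map_pow, map_pow]
  have e : ((k.choose m : ℕ) : Rc) = C ((k.choose m : ℕ) : ℂ) := by simp
  rw [e, mul_comm _ (C _), C_mul', map_smul, smul_eq_mul, mul_comm]

lemma B_pow_ne {F : MvPolynomial (Fin n) ℂ} {p : ℕ} (hp : 1 ≤ p) (hF : F.IsHomogeneous p)
    {a b : ℕ} (hab : a ≠ b) : B (F ^ a) (F ^ b) = 0 :=
  B_ne (hF.pow a) (hF.pow b) fun h' => hab (Nat.eq_of_mul_eq_mul_left hp h')

lemma B_pow_self {F : MvPolynomial (Fin n) ℂ} {p : ℕ} (hF : F.IsHomogeneous p) (a : ℕ) :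
    B (F ^ a) (F ^ a) = ((2 ^ (a * p) * nrm (a * p) (F ^ a) : ℝ) : ℂ) := by
  have h := hF.pow a
  rw [mul_comm p a] at h
  exact B_self h

lemma IsRe.two {P : A602.R} {F : MvPolynomial (Fin n) ℂ} (h : IsRe P F) {p : ℕ} (hp : 1 ≤ p)
    (hF : F.IsHomogeneous p) : A602.E (P ^ 2) = 2 ^ p / 2 * nrm p F := by
  have h1 := h.pow 2
  simp only [sum_range_succ, range_zero, sum_empty] at h1
  rw [B_pow_ne hp hF (show 0 ≠ 2 - 0 by norm_num), B_pow_ne hp hF (show 2 ≠ 2 - 2 by norm_num),
    show 2 - 1 = 1 from rfl, pow_one, B_self hF] at h1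
  have h2 : A602.E (P ^ 2) = (1 / 2) ^ 2 * (2 * (2 ^ p * nrm p F)) := by
    rw [← Complex.ofReal_inj, h1]
    push_cast
    simp
    ring
  rw [h2]
  ring

lemma IsRe.three {P : A602.R} {F : MvPolynomial (Fin n) ℂ} (h : IsRe P F) {p : ℕ} (hp : 1 ≤ p)
    (hF : F.IsHomogeneous p) : A602.E (P ^ 3) = 0 := by
  have h1 := h.pow 3
  simp only [sum_range_succ, range_zero, sum_empty] at h1
  rw [B_pow_ne hp hF (show 0 ≠ 3 - 0 by norm_num), B_pow_ne hp hF (show 1 ≠ 3 - 1 by norm_num),
    B_pow_ne hp hF (show 2 ≠ 3 - 2 by norm_num), B_pow_ne hp hF (show 3 ≠ 3 - 3 by norm_num)] at h1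
  rw [← Complex.ofReal_inj, h1]
  simp

lemma IsRe.four {P : A602.R} {F : MvPolynomial (Fin n) ℂ} (h : IsRe P F) {p : ℕ} (hp : 1 ≤ p)
    (hF : F.IsHomogeneous p) :
    A602.E (P ^ 4) = 3 / 8 * 2 ^ (2 * p) * nrm (2 * p) (F ^ 2) := by
  have h1 := h.pow 4
  simp only [sum_range_succ, range_zero, sum_empty] at h1
  rw [B_pow_ne hp hF (show 0 ≠ 4 - 0 by norm_num), B_pow_ne hp hF (show 1 ≠ 4 - 1 by norm_num),
    B_pow_ne hp hF (show 3 ≠ 4 - 3 by norm_num), B_pow_ne hp hF (show 4 ≠ 4 - 4 by norm_num),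
    show 4 - 2 = 2 from rfl, B_pow_self hF] at h1
  have h3 : Nat.choose 4 2 = 6 := by decide
  have h2 : A602.E (P ^ 4) = (1 / 2) ^ 4 * ((2 ^ (2 * p) * nrm (2 * p) (F ^ 2)) * 6) := by
    rw [← Complex.ofReal_inj, h1, h3]
    push_cast
    simp
  rw [h2]
  ring

lemma IsRe.six {P : A602.R} {F : MvPolynomial (Fin n) ℂ} (h : IsRe P F) {p : ℕ} (hp : 1 ≤ p)
    (hF : F.IsHomogeneous p) :
    A602.E (P ^ 6) = 5 / 16 * 2 ^ (3 * p) * nrm (3 * p) (F ^ 3) := by
  have h1 := h.pow 6
  simp only [sum_range_succ, range_zero, sum_empty] at h1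
  rw [B_pow_ne hp hF (show 0 ≠ 6 - 0 by norm_num), B_pow_ne hp hF (show 1 ≠ 6 - 1 by norm_num),
    B_pow_ne hp hF (show 2 ≠ 6 - 2 by norm_num), B_pow_ne hp hF (show 4 ≠ 6 - 4 by norm_num),
    B_pow_ne hp hF (show 5 ≠ 6 - 5 by norm_num), B_pow_ne hp hF (show 6 ≠ 6 - 6 by norm_num),
    show 6 - 3 = 3 from rfl, B_pow_self hF] at h1
  have h3 : Nat.choose 6 3 = 20 := by decide
  have h2 : A602.E (P ^ 6) = (1 / 2) ^ 6 * ((2 ^ (3 * p) * nrm (3 * p) (F ^ 3)) * 20) := by
    rw [← Complex.ofReal_inj, h1, h3]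
    push_cast
    simp
  rw [h2]
  ring

lemma isHom_I_mul {F : MvPolynomial (Fin n) ℂ} {p : ℕ} (hF : F.IsHomogeneous p) :
    (C Complex.I * F).IsHomogeneous p := by
  have := (isHomogeneous_C (Fin n) Complex.I).mul hF
  rwa [zero_add] at this

/-! ### The chaos -/

lemma sum_range_two_mul {M : Type*} [AddCommMonoid M] (f : ℕ → M) (n : ℕ) :
    ∑ i ∈ range (2 * n), f i = ∑ k : Fin n, (f (2 * (k : ℕ)) + f (2 * (k : ℕ) + 1)) := by
  induction n with
  | zero => simp
  | succ n ih =>
    rw [show 2 * (n + 1) = 2 * n + 1 + 1 by ring, sum_range_succ, sum_range_succ, ih,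
      Fin.sum_univ_castSucc, add_assoc]
    simp

lemma cases_lt {i : ℕ} (hi : i < 2 * n) :
    ∃ k : Fin n, i = 2 * (k : ℕ) ∨ i = 2 * (k : ℕ) + 1 := by
  refine ⟨⟨i / 2, by omega⟩, ?_⟩
  simp only
  omega

lemma cha : ∀ {p : ℕ} {P : A602.R} {F : MvPolynomial (Fin n) ℂ}, F.IsHomogeneous p → IsRe P F →
    A602.Cha (range (2 * n)) p P
  | 0, P, F, hF, h => by
      refine ⟨(coeff 0 F).re, up_injective ?_⟩
      rw [h, eq_C_of_zero hF, aeval_C, algebraMap_eq, map_C, map_C, ← C_add, ← C_mul]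
      congr 1
      rw [coeff_C, if_pos rfl, Complex.add_conj]
      simp
  | p + 1, P, F, hF, h => by
      refine ⟨fun j => ?_, fun j hj => ?_, up_injective ?_⟩
      · rcases lt_or_ge j (2 * n) with hj | hj
        · obtain ⟨k, rfl | rfl⟩ := cases_lt hj
          · exact cha hF.pderiv (h.even k)
          · exact cha (isHom_I_mul hF.pderiv) (h.odd k)
        · rw [h.out hj]; exact A602.Cha.zero _ _
      · exact h.out (by simpa using hj)
      · rw [map_sum, sum_range_two_mul]
        have h1 : ∀ k : Fin n,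
            up (X (2 * (k : ℕ)) * pderiv (2 * (k : ℕ)) P
              - pderiv (2 * (k : ℕ)) (pderiv (2 * (k : ℕ)) P))
            + up (X (2 * (k : ℕ) + 1) * pderiv (2 * (k : ℕ) + 1) P
              - pderiv (2 * (k : ℕ) + 1) (pderiv (2 * (k : ℕ) + 1) P))
            = C (1 / 2) * (Ph (X k * pderiv k F) + cj (Ph (X k * pderiv k F))) := by
          intro k
          have e1 := h.even k
          have e2 := (h.even k).even k
          have e3 := h.odd k
          have e4 := (h.odd k).odd k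
          unfold IsRe at e1 e2 e3 e4
          rw [map_sub, map_sub, map_mul, map_mul, e1, e2, e3, e4, map_X, map_X, pderiv_C_mul]
          simp only [map_mul, map_add, aeval_C, algebraMap_eq, map_C, aeval_X, zp, map_X,
            Complex.conj_I, map_neg]
          have hI : (C Complex.I : Rc) * C Complex.I = -1 := by
            rw [← C_mul, Complex.I_mul_I]; simp
          linear_combination (-(C (1 / 2) * (Ph (pderiv k (pderiv k F))
            + cj (Ph (pderiv k (pderiv k F))))) : Rc) * hI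
        rw [sum_congr rfl fun k _ => h1 k, ← mul_sum, sum_add_distrib, ← map_sum, ← map_sum,
          ← map_sum, hF.sum_X_mul_pderiv, smul_eq_C_mul, map_mul, h]
        rw [nsmul_eq_mul, map_mul, map_mul]
        simp only [map_natCast, map_add, map_one]
        push_cast
        ring

theorem gauss : GAUSS := by
  intro n p hp F hF
  have h := isRe_reP F
  have hp1 : 1 ≤ p := by omega
  have hp2 : 1 ≤ p - 1 := by omega
  refine ⟨reP (Ph F), fun ω => h.eval ω, ⟨_, cha hF h⟩, h.two hp1 hF, h.three hp1 hF,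
    h.four hp1 hF, h.six hp1 hF, fun j => ⟨(h.even j).two hp2 hF.pderiv, ?_⟩, fun i hi => h.out hi⟩
  rw [(h.odd j).two hp2 (isHom_I_mul hF.pderiv), nrm_I_mul]

end Pool.Agent.Hol.H61
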